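import Pool.Agent.R730.MT.GG

/-!
The monotone triangle polynomial at the reversed row `(2n+1, 2n, ..., 1)`.
-/

namespace Pool.Agent.Results.MP_cbdfa9_co.ReversedRow

open Pool.Agent.R730.MT

/-- There is exactly one family of polynomials counting monotone triangles, and it satisfies
`α(2n+1; 2n+1, 2n, ..., 2, 1) = (-1)^n α(n; 2, 4, ..., 2n)` for all `n ≥ 1`. -/
theorem result :
    ∃ α : (∀ n, MvPolynomial (Fin n) ℚ), (∀ n p, IsMTPoly n p ↔ p = α n) ∧
      ∀ n : ℕ, 1 ≤ n →
        valAt α (up 1 (2 * n + 1)).reverse = (-1) ^ n * valAt α (evens n) := by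
  refine ⟨mtp, isMTPoly_iff, ?_⟩
  intro n _
  have hlen : ((up 1 (2 * n + 1)).reverse).length = 2 * n + 1 := by
    rw [List.length_reverse, length_up]
  rw [valAt_eq (length_evens n), valAt_eq hlen, al_down]

end Pool.Agent.Results.MP_cbdfa9_co.ReversedRow
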